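import Pool.Agent.Lib.MP_abd978_an.UN.All

/-!
# MP_abd978_an: for `p > n` and weights which are locally bounded above and below, nonconstant
`(𝒜*, 𝒜)`-harmonic morphisms are open, discrete and locally of bounded length distortion
-/

set_option autoImplicit false

open MeasureTheory Metric Set Filter Topology
open Pool.Agent.Lib.MP_abd978_an
open scoped NNReal

namespace Pool.Agent.Results.MP_abd978_an.BoundedWeights

/-- Let `p > n ≥ 2`, let `Ω` be an open subset of `ℝⁿ` and let `Ω₁ ⊆ Ω` be open, connected and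
dense in `Ω` (for example `Ω₁ = Ω` for a domain `Ω`). Let `f` be an `(𝒜*, 𝒜)`-harmonic morphism
on `Ω`, where the weight `w*` of `𝒜*` is bounded above and below by positive constants near every
point `x` of `Ω₁` and the weight `w` of `𝒜` is so near `f x` (for example `w = w* = 1`; there is
no further assumption on `𝒜` and `𝒜*`). Then `f` is constant, or `f` is an open mapping and, in
`Ω₁`, it is locally Lipschitz, its fibres have boundedly many points in every compact set, and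
`c |v| ≤ |Df(x) v| ≤ C |v|` almost everywhere in every compact set, with `c > 0`. -/
theorem result {n : ℕ} (hn : 2 ≤ n) {p : ℝ} (hp : (n : ℝ) < p) {Ω Ω₁ : Set (E n)}
    (hΩ : IsOpen Ω) (hΩ₁ : IsOpen Ω₁) (hconn : IsPreconnected Ω₁) (hsub : Ω₁ ⊆ Ω)
    (hdense : Ω ⊆ closure Ω₁) {w' : E n → ℝ} {A' : E n → E n → E n} {w : E n → ℝ}
    {A : E n → E n → E n} (hA' : ClassA p w' A') (hA : ClassA p w A)
    {f : E n → E n} (hf : IsMorphism p w' A' w A Ω f)
    (hw : ∀ x ∈ Ω₁, (∃ c C r : ℝ, 0 < c ∧ 0 < r ∧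
        ∀ᵐ y : E n, y ∈ ball x r → c ≤ w' y ∧ w' y ≤ C) ∧
      ∃ c C r : ℝ, 0 < c ∧ 0 < r ∧ ∀ᵐ y : E n, y ∈ ball (f x) r → c ≤ w y ∧ w y ≤ C) :
    (∃ y, ∀ x ∈ Ω, f x = y) ∨
    ((∀ U : Set (E n), IsOpen U → U ⊆ Ω → IsOpen (f '' U)) ∧
      (∀ x ∈ Ω₁, ∃ (K : ℝ≥0) (U : Set (E n)), U ∈ 𝓝 x ∧ LipschitzOnWith K f U) ∧
      ∀ K : Set (E n), IsCompact K → K ⊆ Ω₁ →
        (∃ N : ℕ, ∀ y, (K ∩ f ⁻¹' {y}).Finite ∧ (K ∩ f ⁻¹' {y}).ncard ≤ N) ∧
        ∃ c C : ℝ, 0 < c ∧ ∀ᵐ x : E n, x ∈ K → DifferentiableAt ℝ f x ∧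
          ∀ v : E n, c * ‖v‖ ≤ ‖fderiv ℝ f x v‖ ∧ ‖fderiv ℝ f x v‖ ≤ C * ‖v‖) := by
  rcases UN.all n p w A w' A' Ω Ω₁ f hn hp hA hA' hΩ hf hΩ₁ hconn hsub hdense hw with h | ⟨h, hB⟩
  · left
    by_cases hne : Ω.Nonempty
    · obtain ⟨x, hx⟩ := hne
      exact ⟨f x, fun y hy => h (mem_image_of_mem f hy) (mem_image_of_mem f hx)⟩
    · exact ⟨0, fun x hx => absurd ⟨x, hx⟩ hne⟩
  · right
    refine ⟨h, fun x hx => ?_, fun K hK hKΩ => ⟨?_, hB.der K hK hKΩ⟩⟩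
    · obtain ⟨L, U, hU, hL⟩ := hB.loclip x hx
      exact ⟨L, U, hU, hL⟩
    · obtain ⟨N, hN⟩ := hB.disc K hK hKΩ
      have hcard : ∀ y, ∀ s : Finset (E n), (s : Set (E n)) ⊆ K ∩ f ⁻¹' {y} → s.card ≤ N :=
        fun y s hs => hN y s (fun x hx => (hs hx).1) fun x hx => (hs hx).2
      refine ⟨N, fun y => ?_⟩
      have hfin : (K ∩ f ⁻¹' {y}).Finite := by
        by_contra hcon
        obtain ⟨s, hs, hs'⟩ := (Set.Infinite.exists_subset_card_eq hcon (N + 1))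
        have := hcard y s hs
        omega
      refine ⟨hfin, ?_⟩
      rw [ncard_eq_toFinset_card _ hfin]
      exact hcard y _ (by simp)

end Pool.Agent.Results.MP_abd978_an.BoundedWeights
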