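import Pool.Agent.Lib.MP_abd978_an.All

/-!
# MP_abd978_an: `𝔄_p`-harmonic morphisms are open or locally constant at every point
-/

set_option autoImplicit false

open MeasureTheory Metric Set Filter Topology
open Pool.Agent.Lib.MP_abd978_an

namespace Pool.Agent.Results.MP_abd978_an.OpenOrConstant

/-- Let `n ≥ 2`, `1 < p < ∞`, and let `f` be an `𝔄_p`-harmonic morphism on an open set `Ω` of
`ℝⁿ` (for arbitrary `p`-admissible weights, with no assumption on the polarity of points).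
(1) At every point `x₀` of `Ω` either `f` is open at `x₀` or `f` is constant in a neighbourhood
of `x₀`. (2) The image of every domain `G ⊆ Ω` is open or a single point. (3) If `f` has the
Rado property, then `f` is open. -/
theorem result {n : ℕ} (hn : 2 ≤ n) {p : ℝ} (hp : 1 < p) {Ω : Set (E n)} (hΩ : IsOpen Ω)
    {f : E n → E n} (hf : IsClassMorphism p Ω f) :
    (∀ x₀ ∈ Ω, (∀ U ∈ 𝓝 x₀, f '' (U ∩ Ω) ∈ 𝓝 (f x₀)) ∨ ∀ᶠ x in 𝓝 x₀, f x = f x₀) ∧
    (∀ G : Set (E n), IsOpen G → IsPreconnected G → G ⊆ Ω →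
      IsOpen (f '' G) ∨ (f '' G).Subsingleton) ∧
    ((∀ y, interior (Ω ∩ f ⁻¹' {y}) = ∅) →
      ∀ U : Set (E n), IsOpen U → U ⊆ Ω → IsOpen (f '' U)) :=
  all n p Ω f hn hp hΩ hf

end Pool.Agent.Results.MP_abd978_an.OpenOrConstant
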