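import Pool.Agent.Lib.MP_abd978_an.PL.All

/-!
# MP_abd978_an: in the plane nonconstant `(𝒜*, 𝒜)`-harmonic morphisms are open and have the Rado
property, if the source weight is locally a Muckenhoupt type weight
-/

set_option autoImplicit false

open MeasureTheory Metric Set Filter Topology
open Pool.Agent.Lib.MP_abd978_an

namespace Pool.Agent.Results.MP_abd978_an.Planar

/-- Let `n = 2`, `1 < p < ∞`, let `Ω` be an open set and let `Ω₀ ⊆ Ω` be open, connected and dense
in `Ω` (for example `Ω₀ = Ω` for a domain `Ω`). Let `f` be an `(𝒜*, 𝒜)`-harmonic morphism on `Ω`,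
where the weight `w` of `𝒜` is an arbitrary `p`-admissible weight and the weight `w*` of `𝒜*` is a
`p`-admissible weight such that `(w*)^(-1/(p-1))` is locally integrable on `Ω₀` (all `A_p`-weights,
in particular `w* = 1`, and `|x|^γ` for all `γ > -2`). Then `f` is constant, or `f` has the Rado
property and is an open mapping. There is no assumption on the polarity of points. -/
theorem result {p : ℝ} (hp : 1 < p) {Ω Ω₀ : Set (E 2)} (hΩ : IsOpen Ω) (hΩ₀ : IsOpen Ω₀)
    (hconn : IsPreconnected Ω₀) (hsub : Ω₀ ⊆ Ω) (hdense : Ω ⊆ closure Ω₀)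
    {w' : E 2 → ℝ} {A' : E 2 → E 2 → E 2} {w : E 2 → ℝ} {A : E 2 → E 2 → E 2}
    (hA' : ClassA p w' A') (hA : ClassA p w A)
    (hw' : LocallyIntegrableOn (fun x => w' x ^ (-(1 / (p - 1)))) Ω₀)
    {f : E 2 → E 2} (hf : IsMorphism p w' A' w A Ω f) :
    (∃ y, ∀ x ∈ Ω, f x = y) ∨
    ((∀ y, interior (Ω ∩ f ⁻¹' {y}) = ∅) ∧
      ∀ U : Set (E 2), IsOpen U → U ⊆ Ω → IsOpen (f '' U)) :=
  PL.planar p Ω Ω₀ w' A' w A f hp hΩ hΩ₀ hconn hsub hdense hA' hA hw' hf

end Pool.Agent.Results.MP_abd978_an.Planar
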